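import Mathlib
import Pool.Agent.H523R2.Cap.Cert

/-!
# Cap sets of size `2.22086^n`

For all sufficiently large `n` there is a subset of `F_3^n` without nontrivial three-term
progressions which has at least `2.22086^n` elements.
-/

namespace Pool.Agent.Results.MP_b30443_co.CapSetRecord

open Pool.Agent.H523R2.Cap

/-- `A ⊆ F_3^n` contains no nontrivial three-term progression `x, x + y, x + 2y`, `y ≠ 0`. -/
def ProgFree {n : ℕ} (A : Finset (Fin n → ZMod 3)) : Prop :=
  ∀ x y : Fin n → ZMod 3, x ∈ A → x + y ∈ A → x + 2 • y ∈ A → y = 0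

lemma num : Good 497664 [7002575522694564534, 10397364906949642162, 9261914884461308087] 572809 1
    2220866 1000000 = true := by decide +kernel

/-- Cap sets in `F_3^n` of size at least `2.22086^n`, for all large `n`. -/
theorem result : ∃ n0 : ℕ, ∀ n : ℕ, n0 ≤ n → ∃ A : Finset (Fin n → ZMod 3),
    ProgFree A ∧ (2.22086 : ℝ) ^ n ≤ (A.card : ℝ) :=
  finish Tb 3 497664 [7002575522694564534, 10397364906949642162, 9261914884461308087] 572809
    h11 1 (by decide) (by decide) 2220866 1000000 (by decide) 2.22086 (by norm_num)
    (by norm_num) num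

end Pool.Agent.Results.MP_b30443_co.CapSetRecord
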