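import Mathlib
import Pool.Agent.H523R2.AP.Norm

/-!
The exponential growth rate of `r_k(F_p^n)` is not attained in any finite dimension.
-/

namespace Pool.Agent.Results.MP_b30443_co.NotAttained

open Pool.Agent.H523R2.AP Filter Topology Finset

/-- `r k p n` is the largest size of a subset of `F_p^n` without nontrivial `k`-term
arithmetic progressions. -/
noncomputable def r (k p n : ℕ) : ℕ :=
  sSup {t | ∃ A : Finset (Fin n → ZMod p), APFree k A ∧ A.card = t}

variable {k p : ℕ} [hp : Fact p.Prime]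

lemma bdd (n : ℕ) : BddAbove {t | ∃ A : Finset (Fin n → ZMod p), APFree k A ∧ A.card = t} := by
  refine ⟨p ^ n, ?_⟩
  rintro t ⟨A, _, rfl⟩
  have := card_le_univ A
  rwa [Fintype.card_fun, Fintype.card_fin, ZMod.card] at this

lemma le_r {n t : ℕ} (h : HasAP k (Fin n → ZMod p) t) : t ≤ r k p n := le_csSup (bdd n) h

lemma empty_ap (hk : 1 ≤ k) {V : Type*} [AddCommGroup V] : APFree k (∅ : Finset V) := by
  intro x y _ h
  simpa using h 0 (by omega)

lemma exists_r (hk : 1 ≤ k) (n : ℕ) : HasAP k (Fin n → ZMod p) (r k p n) :=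
  Nat.sSup_mem (s := {t | ∃ A : Finset (Fin n → ZMod p), APFree k A ∧ A.card = t})
    ⟨0, ∅, empty_ap hk, rfl⟩ (bdd n)

lemma one_le_r (hk : 2 ≤ k) (n : ℕ) : 1 ≤ r k p n := by
  apply le_r
  refine ⟨{0}, ?_, card_singleton _⟩
  intro x y hy h
  have h0 := h 0 (by omega)
  have h1 := h 1 (by omega)
  rw [mem_singleton] at h0 h1
  rw [zero_smul, add_zero] at h0
  rw [h0, one_smul, zero_add] at h1
  exact hy h1

/-- `F_p^m × F_p^n ≃ F_p^(m+n)` -/
noncomputable def appEquiv (m n : ℕ) :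
    ((Fin m → ZMod p) × (Fin n → ZMod p)) ≃+ (Fin (m + n) → ZMod p) :=
  { Fin.appendEquiv m n with
    map_add' := fun a b => by
      funext i
      refine Fin.addCases (fun j => ?_) (fun j => ?_) i <;> simp [Fin.appendEquiv] }

lemma r_mul_le (hk : 1 ≤ k) (m n : ℕ) : r k p m * r k p n ≤ r k p (m + n) := by
  classical
  obtain ⟨A, hA, hA'⟩ := exists_r (p := p) hk m
  obtain ⟨B, hB, hB'⟩ := exists_r (p := p) hk n
  apply le_r
  refine HasAP.equiv (appEquiv m n) ⟨A ×ˢ B, ?_, by rw [card_product, hA', hB']⟩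
  rintro ⟨x, x'⟩ ⟨y, y'⟩ hy h
  have h1 : ∀ j < k, x + j • y ∈ A := fun j hj => (mem_product.1 (h j hj)).1
  have h2 : ∀ j < k, x' + j • y' ∈ B := fun j hj => (mem_product.1 (h j hj)).2
  by_cases hy0 : y = 0
  · by_cases hy1 : y' = 0
    · exact hy (by rw [hy0, hy1]; rfl)
    · exact hB _ _ hy1 h2
  · exact hA _ _ hy0 h1

theorem pow_lt (hk : 3 ≤ k) (hkp : k ≤ p) (n : ℕ) (hn : 1 ≤ n) :
    ∃ N : ℕ, 1 ≤ N ∧ r k p n ^ N < r k p (N * n) := by
  classical
  obtain ⟨A, hA, hcard⟩ := exists_r (k := k) (p := p) (by omega) n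
  have hR1 : 1 ≤ A.card := by rw [hcard]; exact one_le_r (by omega) n
  by_cases hR : (p ^ n) ^ (k - 2) < A.card ^ (k - 1)
  · -- a point outside `A`
    have hne : ∃ v, v ∉ A := by
      by_contra hcon
      push Not at hcon
      have : NeZero n := ⟨by omega⟩
      have hy : (fun _ : Fin n => (1 : ZMod p)) ≠ 0 := by
        intro h
        have := congrFun h 0
        simp at this
      exact hA 0 _ hy fun j _ => hcon _
    obtain ⟨v, hv⟩ := hne
    obtain ⟨N, t, hN, ht, hlt⟩ := improve (by omega) A hA v hv hR1 hR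
    refine ⟨N, hN, ?_⟩
    rw [← hcard]
    exact hlt.trans_le (le_r ht)
  · push Not at hR
    refine ⟨k, by omega, ?_⟩
    have h1 : HasAP k (Fin (n * k) → ZMod p) ((p ^ (k - 1)) ^ n) :=
      ((norm_set (p := p) hk hkp).pow n).equiv (powEquiv n k)
    rw [mul_comm n k] at h1
    refine lt_of_lt_of_le ?_ (le_r h1)
    rw [← hcard, ← pow_mul, mul_comm (k - 1) n, pow_mul]
    set P := p ^ n with hP
    have hP2 : 2 ≤ P := by
      calc 2 ≤ p := hp.out.two_le
        _ = p ^ 1 := (pow_one p).symm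
        _ ≤ p ^ n := Nat.pow_le_pow_right hp.out.pos hn
    by_contra hcon
    push Not at hcon
    have h2 : (P ^ (k - 1)) ^ (k - 1) ≤ (P ^ (k - 2)) ^ k := by
      calc (P ^ (k - 1)) ^ (k - 1) ≤ (A.card ^ k) ^ (k - 1) := Nat.pow_le_pow_left hcon _
        _ = (A.card ^ (k - 1)) ^ k := by rw [← pow_mul, ← pow_mul, mul_comm]
        _ ≤ (P ^ (k - 2)) ^ k := Nat.pow_le_pow_left hR _
    rw [← pow_mul P, ← pow_mul P] at h2
    have h3 := (Nat.pow_le_pow_iff_right (by omega : 1 < P)).1 h2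
    obtain ⟨j, rfl⟩ : ∃ j, k = j + 3 := ⟨k - 3, by omega⟩
    have e1 : j + 3 - 1 = j + 2 := by omega
    have e2 : j + 3 - 2 = j + 1 := by omega
    rw [e1, e2] at h3
    nlinarith

theorem result (k p : ℕ) [Fact p.Prime] (hk : 3 ≤ k) (hkp : k ≤ p) :
    (∀ n : ℕ, 1 ≤ n → ∃ N : ℕ, 1 ≤ N ∧ r k p n ^ N < r k p (N * n)) ∧
    ∃ L : ℝ, Tendsto (fun n : ℕ => (r k p n : ℝ) ^ (1 / (n : ℝ))) atTop (𝓝 L) ∧
      ∀ n : ℕ, 1 ≤ n → (r k p n : ℝ) < L ^ n := by
  refine ⟨fun n hn => pow_lt hk hkp n hn, ?_⟩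
  have hpos : ∀ n, (0 : ℝ) < r k p n := fun n => by exact_mod_cast one_le_r (p := p) (by omega) n
  have hsub : Subadditive (fun n : ℕ => - Real.log (r k p n)) := by
    intro m n
    have h1 : (r k p m : ℝ) * r k p n ≤ r k p (m + n) := by
      exact_mod_cast r_mul_le (p := p) (by omega) m n
    have h2 := Real.log_le_log (mul_pos (hpos m) (hpos n)) h1
    rw [Real.log_mul (hpos m).ne' (hpos n).ne'] at h2
    linarith
  have hbdd : BddBelow (Set.range fun n : ℕ => (- Real.log (r k p n)) / n) := by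
    refine ⟨- Real.log p, ?_⟩
    rintro _ ⟨n, rfl⟩
    have hp1 : (1 : ℝ) ≤ p := by exact_mod_cast (Fact.out : p.Prime).one_lt.le
    rcases Nat.eq_zero_or_pos n with rfl | hn
    · simp only [Nat.cast_zero, div_zero]
      have := Real.log_nonneg hp1
      linarith
    · have hn' : (0 : ℝ) < n := by exact_mod_cast hn
      have h1 : (r k p n : ℝ) ≤ (p : ℝ) ^ n := by
        have : r k p n ≤ p ^ n := by
          obtain ⟨A, _, hA⟩ := exists_r (k := k) (p := p) (by omega) n
          rw [← hA]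
          have := card_le_univ A
          rwa [Fintype.card_fun, Fintype.card_fin, ZMod.card] at this
        exact_mod_cast this
      have h2 := Real.log_le_log (hpos n) h1
      rw [Real.log_pow] at h2
      simp only
      rw [le_div_iff₀ hn']
      linarith
  have hlim := hsub.tendsto_lim hbdd
  set ℓ := - hsub.lim with hℓ
  refine ⟨Real.exp ℓ, ?_, ?_⟩
  · have h1 := (Real.continuous_exp.tendsto ℓ).comp (hlim.neg)
    refine h1.congr fun n => ?_
    simp only [Function.comp]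
    rw [Real.rpow_def_of_pos (hpos n)]
    congr 1
    ring
  · have hle : ∀ n : ℕ, 1 ≤ n → (r k p n : ℝ) ≤ Real.exp ℓ ^ n := by
      intro n hn
      have h1 := hsub.lim_le_div hbdd (n := n) (by omega)
      have hn' : (0 : ℝ) < n := by exact_mod_cast hn
      rw [le_div_iff₀ hn'] at h1
      have h2 : Real.log (r k p n) ≤ n * ℓ := by rw [hℓ]; linarith
      rw [← Real.exp_nat_mul, ← Real.exp_log (hpos n)]
      exact Real.exp_le_exp.2 h2
    intro n hn
    obtain ⟨N, hN, hlt⟩ := pow_lt (p := p) hk hkp n hn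
    have h1 : (r k p n : ℝ) ^ N < (Real.exp ℓ ^ n) ^ N := by
      calc (r k p n : ℝ) ^ N < r k p (N * n) := by exact_mod_cast hlt
        _ ≤ Real.exp ℓ ^ (N * n) := hle _ (Nat.mul_pos hN hn)
        _ = (Real.exp ℓ ^ n) ^ N := by rw [← pow_mul, mul_comm]
    exact lt_of_pow_lt_pow_left₀ N (by positivity) h1

end Pool.Agent.Results.MP_b30443_co.NotAttained
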