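import Mathlib
import Pool.Agent.H309R2.AP3.Table
import Pool.Agent.H309R2.AP3.Data4
import Pool.Agent.H309R2.AP3.Level

/-!
Lower bounds for progression-free subsets of `F_p^n`.
-/

namespace Pool.Agent.Results.MP_b30443_co.ThreeTerm

open Finset Filter Topology
open Pool.Agent.H309R2.AP3

/-- `A ⊆ F_p^n` contains no nontrivial `k`-term progression `x, x+y, …, x+(k-1)y` with `y ≠ 0`. -/
def APFree (k p n : ℕ) (A : Finset (Fin n → ZMod p)) : Prop :=
  ∀ x y : Fin n → ZMod p, (∀ i : ℕ, i < k → x + i • y ∈ A) → y = 0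

/-- `r_k(F_p^n)`: the largest size of a subset of `F_p^n` without nontrivial `k`-term
progressions. -/
noncomputable def r (k p n : ℕ) : ℕ :=
  sSup {m : ℕ | ∃ A : Finset (Fin n → ZMod p), APFree k p n A ∧ A.card = m}

section
variable {k p : ℕ} [hp : Fact p.Prime]

lemma bdd (n : ℕ) : BddAbove {N | ∃ A : Finset (Fin n → ZMod p), APFree k p n A ∧ A.card = N} := by
  refine ⟨p ^ n, ?_⟩
  rintro N ⟨A, _, rfl⟩
  calc A.card ≤ (univ : Finset (Fin n → ZMod p)).card := card_le_univ A
    _ = p ^ n := by simp [ZMod.card]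

lemma le_r {n : ℕ} {A : Finset (Fin n → ZMod p)} (h : APFree k p n A) : A.card ≤ r k p n :=
  le_csSup (bdd n) ⟨A, h, rfl⟩

lemma r_le (n : ℕ) : r k p n ≤ p ^ n := by
  apply csSup_le'
  rintro N ⟨A, _, rfl⟩
  calc A.card ≤ (univ : Finset (Fin n → ZMod p)).card := card_le_univ A
    _ = p ^ n := by simp [ZMod.card]

lemma exists_r (n : ℕ) (hk : 1 ≤ k) :
    ∃ A : Finset (Fin n → ZMod p), APFree k p n A ∧ A.card = r k p n := by
  have hne : {N | ∃ A : Finset (Fin n → ZMod p), APFree k p n A ∧ A.card = N}.Nonempty := by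
    refine ⟨0, ∅, ?_, rfl⟩
    intro x y h
    have := h 0 (by omega)
    simp at this
  exact Nat.sSup_mem hne (bdd n)

lemma one_le_r (n : ℕ) (hk : 2 ≤ k) : 1 ≤ r k p n := by
  have h : APFree k p n ({0} : Finset (Fin n → ZMod p)) := by
    intro x y h
    have h0 := h 0 (by omega)
    have h1 := h 1 (by omega)
    simp at h0 h1
    rw [h0] at h1
    simpa using h1
  have := le_r h
  simpa using this

lemma r_mul_le (m n : ℕ) (hk : 1 ≤ k) : r k p m * r k p n ≤ r k p (m + n) := by
  classical
  obtain ⟨A, hA, hAc⟩ := exists_r (k := k) (p := p) m hk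
  obtain ⟨B, hB, hBc⟩ := exists_r (k := k) (p := p) n hk
  set e := Fin.appendEquiv (α := ZMod p) m n with he
  have hfree : APFree k p (m + n) ((A ×ˢ B).map e.toEmbedding) := by
    intro x y hcon
    have hmem : ∀ j < k, (fun i => x (Fin.castAdd n i)) + j • (fun i => y (Fin.castAdd n i)) ∈ A ∧
        (fun i => x (Fin.natAdd m i)) + j • (fun i => y (Fin.natAdd m i)) ∈ B := by
      intro j hj
      have := hcon j hj
      rw [Finset.mem_map] at this
      obtain ⟨⟨a, b⟩, hab, hE⟩ := this
      rw [mem_product] at hab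
      have hE' : Fin.append a b = x + j • y := hE
      constructor
      · have : (fun i => x (Fin.castAdd n i)) + j • (fun i => y (Fin.castAdd n i)) = a := by
          funext i
          have := congrFun hE' (Fin.castAdd n i)
          rw [Fin.append_left] at this
          simpa using this.symm
        rw [this]; exact hab.1
      · have : (fun i => x (Fin.natAdd m i)) + j • (fun i => y (Fin.natAdd m i)) = b := by
          funext i
          have := congrFun hE' (Fin.natAdd m i)
          rw [Fin.append_right] at this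
          simpa using this.symm
        rw [this]; exact hab.2
    have hy1 := hA _ _ fun j hj => (hmem j hj).1
    have hy2 := hB _ _ fun j hj => (hmem j hj).2
    funext i
    refine Fin.addCases (fun i => ?_) (fun i => ?_) i
    · exact congrFun hy1 i
    · exact congrFun hy2 i
  have := le_r hfree
  rw [card_map, card_product, hAc, hBc] at this
  exact this

/-- The limit exists (Fekete). -/
lemma exists_lim (hk : 2 ≤ k) :
    ∃ L : ℝ, Tendsto (fun n : ℕ => Real.log (r k p n) / n) atTop (𝓝 L) := by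
  have hsub : Subadditive (fun n : ℕ => -Real.log (r k p n)) := by
    intro m n
    have h1 : (0 : ℝ) < r k p m := by exact_mod_cast one_le_r m hk
    have h2 : (0 : ℝ) < r k p n := by exact_mod_cast one_le_r n hk
    have h3 : Real.log (r k p m * r k p n : ℝ) ≤ Real.log (r k p (m + n)) := by
      apply Real.log_le_log (by positivity)
      exact_mod_cast r_mul_le m n (by omega)
    rw [Real.log_mul h1.ne' h2.ne'] at h3
    simp only
    linarith
  have hbdd : BddBelow (Set.range fun n : ℕ => -Real.log (r k p n) / n) := by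
    refine ⟨-Real.log p, ?_⟩
    rintro _ ⟨n, rfl⟩
    have hp1 : (1 : ℝ) < p := by exact_mod_cast hp.out.one_lt
    rcases Nat.eq_zero_or_pos n with hn | hn
    · subst hn
      simp only [Nat.cast_zero, div_zero]
      have := Real.log_pos hp1
      linarith
    · have hn' : (0 : ℝ) < n := by exact_mod_cast hn
      simp only
      rw [le_div_iff₀ hn']
      have h1 : (0 : ℝ) < r k p n := by exact_mod_cast one_le_r n hk
      have h2 : Real.log (r k p n) ≤ Real.log ((p : ℝ) ^ n) := by
        apply Real.log_le_log h1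
        exact_mod_cast r_le n
      rw [Real.log_pow] at h2
      nlinarith
  refine ⟨-hsub.lim, ?_⟩
  have := (hsub.tendsto_lim hbdd).neg
  refine this.congr ?_
  intro n
  simp [neg_div]

lemma log_div_tendsto (C : ℝ) (hC : 0 ≤ C) :
    Tendsto (fun n : ℕ => Real.log ((n : ℝ) * C + 1) / n) atTop (𝓝 0) := by
  have h0 : Tendsto (fun x : ℝ => Real.log x / x) atTop (𝓝 0) := by
    have := Real.isLittleO_log_id_atTop.tendsto_div_nhds_zero
    simpa using this
  have h1 : Tendsto (fun n : ℕ => Real.log ((n : ℝ)) / n) atTop (𝓝 0) :=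
    h0.comp tendsto_natCast_atTop_atTop
  have h2 : Tendsto (fun n : ℕ => Real.log (C + 1) / (n : ℝ)) atTop (𝓝 0) :=
    tendsto_const_nhds.div_atTop tendsto_natCast_atTop_atTop
  have h3 := h1.add h2
  rw [add_zero] at h3
  refine tendsto_of_tendsto_of_tendsto_of_le_of_le' tendsto_const_nhds h3 ?_ ?_
  · filter_upwards [eventually_gt_atTop 0] with n hn
    have hn' : (0 : ℝ) < n := by exact_mod_cast hn
    apply div_nonneg _ hn'.le
    apply Real.log_nonneg
    have : 0 ≤ (n : ℝ) * C := by positivity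
    linarith
  · filter_upwards [eventually_gt_atTop 0] with n hn
    have hn' : (0 : ℝ) < n := by exact_mod_cast hn
    have hn1 : (1 : ℝ) ≤ n := by exact_mod_cast hn
    rw [← add_div]
    apply div_le_div_of_nonneg_right _ hn'.le
    rw [← Real.log_mul hn'.ne' (by positivity)]
    apply Real.log_le_log (by positivity)
    nlinarith

/-- A peelable set bounds the growth rate from below. -/
lemma log_card_le (hk : 3 ≤ k) (hkp : k ≤ p) {L : ℝ}
    (hL : Tendsto (fun n : ℕ => Real.log (r k p n) / n) atTop (𝓝 L))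
    {d : ℕ} (hd : 1 ≤ d) {S : Finset (Fin d → ZMod p)} (hS : Peel S) (hne : 1 ≤ S.card) :
    Real.log S.card ≤ d * L := by
  have hp3 : 3 ≤ p := hk.trans hkp
  have hodd : Odd p := hp.out.odd_of_ne_two (by omega)
  have : NeZero p := ⟨by omega⟩
  have hd' : (0 : ℝ) < d := by exact_mod_cast hd
  have key : ∀ N : ℕ, S.card ^ N ≤ (N * 3 ^ S.card + 1) * r k p (N * d) := by
    intro N
    obtain ⟨A, hA1, hA2⟩ := exists_level' hodd hS N
    refine hA1.trans (Nat.mul_le_mul_left _ (le_r ?_))
    intro x y h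
    have h0 := h 0 (by omega)
    have h1 := h 1 (by omega)
    have h2 := h 2 (by omega)
    have h3 := hA2 _ h0 _ h2 _ h1 (by
      simp only [zero_smul, add_zero, one_smul, two_smul]
      abel)
    have h4 : (0 : Fin (N * d) → ZMod p) = y + y := by
      rw [zero_smul, add_zero, two_smul] at h3
      exact add_left_cancel (a := x) (by rw [add_zero]; exact h3)
    have h5 : (0 : Fin (N * d) → ZMod p) = y := two_inj hodd (by rw [add_zero]; exact h4)
    exact h5.symm
  have hlow : ∀ᶠ N : ℕ in atTop, Real.log S.card - Real.log ((N : ℝ) * (3 ^ S.card : ℕ) + 1) / N ≤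
      d * (Real.log (r k p (N * d)) / ((N * d : ℕ) : ℝ)) := by
    filter_upwards [eventually_gt_atTop 0] with N hN
    have hN' : (0 : ℝ) < N := by exact_mod_cast hN
    have hc : (0 : ℝ) < S.card := by exact_mod_cast hne
    have hr : (0 : ℝ) < r k p (N * d) := by exact_mod_cast one_le_r (N * d) (by omega)
    have h3 : ((S.card : ℝ)) ^ N ≤ ((N : ℝ) * (3 ^ S.card : ℕ) + 1) * r k p (N * d) := by
      exact_mod_cast key N
    have h4 := Real.log_le_log (by positivity) h3
    rw [Real.log_mul (by positivity) hr.ne', Real.log_pow] at h4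
    have e : (d : ℝ) * (Real.log (r k p (N * d)) / ((N * d : ℕ) : ℝ)) =
        Real.log (r k p (N * d)) / N := by
      push_cast
      field_simp
    rw [e, sub_le_iff_le_add, ← add_div, le_div_iff₀ hN']
    linarith
  have hL' : Tendsto (fun N : ℕ => (d : ℝ) * (Real.log (r k p (N * d)) / ((N * d : ℕ) : ℝ))) atTop
      (𝓝 (d * L)) := by
    apply Tendsto.const_mul
    exact hL.comp (tendsto_id.atTop_mul_const' (by omega : 0 < d))
  have hleft : Tendsto (fun N : ℕ => Real.log S.card -
      Real.log ((N : ℝ) * (3 ^ S.card : ℕ) + 1) / N) atTop (𝓝 (Real.log S.card - 0)) :=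
    tendsto_const_nhds.sub (log_div_tendsto _ (by positivity))
  rw [sub_zero] at hleft
  exact le_of_tendsto_of_tendsto hleft hL' hlow

/-- A certificate bounds the growth rate from below. -/
lemma rate_le (hk : 3 ≤ k) (hkp : k ≤ p) {L : ℝ}
    (hL : Tendsto (fun n : ℕ => Real.log (r k p n) / n) atTop (𝓝 L))
    {H Rn Rd q e : ℕ} (hg : Good H Rn Rd) (hRn : 1 ≤ Rn) (hRd : 1 ≤ Rd)
    (hM : p + 1 = 2 * (H * q + e)) (hq : 1 ≤ q) :
    (q : ℝ) * Rn / Rd ≤ Real.exp L := by
  have hp3 : 3 ≤ p := hk.trans hkp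
  have : NeZero p := ⟨by omega⟩
  obtain ⟨C, hC⟩ := hg p q e hM hq
  have hx : (0 : ℝ) < (q : ℝ) * Rn / Rd := by
    have h1 : (0 : ℝ) < q := by exact_mod_cast hq
    have h2 : (0 : ℝ) < Rn := by exact_mod_cast hRn
    have h3 : (0 : ℝ) < Rd := by exact_mod_cast hRd
    positivity
  rw [← Real.exp_log hx]
  apply Real.exp_le_exp.2
  by_contra hcon
  push Not at hcon
  set δ := Real.log ((q : ℝ) * Rn / Rd) - L with hδ
  have hδ0 : 0 < δ := by linarith
  have hRd' : (0 : ℝ) < Rd := by exact_mod_cast hRd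
  have hC1 : 1 ≤ C := by
    obtain ⟨S, _, hS⟩ := hC 0
    by_contra h0
    have : C = 0 := by omega
    subst this
    simp at hS
  have key : ∀ m : ℕ, (m : ℝ) * δ ≤ Real.log C + 3 * L := by
    intro m
    obtain ⟨S, hS1, hS2⟩ := hC m
    have hne : 1 ≤ S.card := by
      by_contra h0
      have h1 : S.card = 0 := by omega
      rw [h1, mul_zero] at hS2
      have : 0 < (q * Rn) ^ m := Nat.pow_pos (Nat.mul_pos hq hRn)
      omega
    have h1 := log_card_le hk hkp hL (by omega : 1 ≤ 3 + m) hS1 hne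
    have hS3 : ((q : ℝ) * Rn) ^ m ≤ C * (Rd : ℝ) ^ m * S.card := by exact_mod_cast hS2
    have hc : (0 : ℝ) < S.card := by exact_mod_cast hne
    have hC' : (0 : ℝ) < C := by exact_mod_cast hC1
    have h2 : ((q : ℝ) * Rn / Rd) ^ m ≤ C * S.card := by
      rw [div_pow, div_le_iff₀ (by positivity)]
      linarith
    have h3 := Real.log_le_log (by positivity) h2
    rw [Real.log_pow, Real.log_mul hC'.ne' hc.ne'] at h3
    push_cast at h1
    have h4 : (m : ℝ) * δ = m * Real.log ((q : ℝ) * Rn / Rd) - m * L := by rw [hδ]; ring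
    rw [h4]
    linarith
  obtain ⟨m, hm⟩ := exists_nat_gt ((Real.log C + 3 * L) / δ)
  have := key m
  rw [div_lt_iff₀ hδ0] at hm
  linarith

/-- The one-dimensional peelable set. -/
lemma half_le (hk : 3 ≤ k) (hkp : k ≤ p) {L : ℝ}
    (hL : Tendsto (fun n : ℕ => Real.log (r k p n) / n) atTop (𝓝 L)) :
    ((p : ℝ) + 1) / 2 ≤ Real.exp L := by
  have hp3 : 3 ≤ p := hk.trans hkp
  have hodd : Odd p := hp.out.odd_of_ne_two (by omega)
  have : NeZero p := ⟨by omega⟩
  obtain ⟨P, hP⟩ := hodd
  set F : ℕ → Finset (Fin 0 → ZMod p) := fun u => if u < P + 1 then univ else ∅ with hF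
  have hpeel : Peel (glue F 0) := by
    apply peel_glue
    · intro u _ T _ hne
      obtain ⟨y, hy⟩ := hne
      exact ⟨y, hy, fun x _ z _ _ => Subsingleton.elim _ _⟩
    · intro u1 u2 u3 _ _ _ hu x _ z _ y hy
      rw [hF] at hy
      simp only at hy
      rw [if_neg (by omega)] at hy
      simp at hy
  have hcard : (glue F 0).card = P + 1 := by
    rw [card_glue, hF]
    have e : p = (P + 1) + P := by omega
    have h1 : ∀ u ∈ range (P + 1),
        (if u < P + 1 then (univ : Finset (Fin 0 → ZMod p)) else ∅).card = 1 := by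
      intro u hu
      rw [mem_range] at hu
      rw [if_pos hu]
      simp
    have h2 : ∀ u ∈ range P,
        (if P + 1 + u < P + 1 then (univ : Finset (Fin 0 → ZMod p)) else ∅).card = 0 := by
      intro u _
      rw [if_neg (by omega)]
      simp
    have h3 : ∀ f : ℕ → ℕ, ∑ u ∈ range p, f u =
        ∑ u ∈ range (P + 1), f u + ∑ u ∈ range P, f (P + 1 + u) := by
      intro f
      have : range p = range ((P + 1) + P) := by rw [← e]
      rw [this, sum_range_add]
    rw [h3, sum_congr rfl h1, sum_congr rfl h2]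
    simp
  have h := log_card_le hk hkp hL (by omega : 1 ≤ 0 + 1) hpeel (by rw [hcard]; omega)
  rw [hcard] at h
  push_cast at h
  rw [one_mul] at h
  have hP' : ((p : ℝ) + 1) / 2 = P + 1 := by
    rw [hP]; push_cast; ring
  rw [hP', ← Real.exp_log (by positivity : (0 : ℝ) < P + 1)]
  exact Real.exp_le_exp.2 h

end

/-- **Theorem.** For every prime `p` and `3 ≤ k ≤ p` the growth rate `λ_{k,p}` satisfies
`λ_{k,p} ≥ 0.56 p`, `λ_{k,p} ≥ 0.5689 (p - 4093)`, and `λ_{k,p} ≥ 0.569 p + 0.149` when
`7 ≤ p < 343`. -/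
theorem result (k p : ℕ) [Fact p.Prime] (hk : 3 ≤ k) (hkp : k ≤ p) :
    ∃ L : ℝ, Tendsto (fun n : ℕ => (r k p n : ℝ) ^ (1 / (n : ℝ))) atTop (𝓝 L) ∧
      0.56 * (p : ℝ) ≤ L ∧ 0.5689 * ((p : ℝ) - 4093) ≤ L ∧
      (7 ≤ p → p < 343 → 0.569 * (p : ℝ) + 0.149 ≤ L) := by
  obtain ⟨L, hL⟩ := exists_lim (k := k) (p := p) (by omega)
  have hp : p.Prime := Fact.out
  have hp3 : 3 ≤ p := hk.trans hkp
  have hodd : Odd p := hp.odd_of_ne_two (by omega)
  obtain ⟨P, hP⟩ := hodd
  have hlim : Tendsto (fun n : ℕ => (r k p n : ℝ) ^ (1 / (n : ℝ))) atTop (𝓝 (Real.exp L)) := by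
    have h1 := (Real.continuous_exp.tendsto L).comp hL
    refine h1.congr ?_
    intro n
    have h2 : (0 : ℝ) < r k p n := by exact_mod_cast one_le_r n (by omega)
    simp only [Function.comp]
    rw [Real.rpow_def_of_pos h2]
    congr 1
    ring
  have hpR : (p : ℝ) = 2 * P + 1 := by rw [hP]; push_cast; ring
  -- the range `7 ≤ p < 343`
  have hmid : 7 ≤ p → p < 343 → 0.569 * (p : ℝ) + 0.149 ≤ Real.exp L := by
    intro h7 h343
    have hg := good_all (P + 1) (by omega) (by omega)
    have h1 := rate_le hk hkp hL (q := 1) (e := 0) hg (by omega) (by norm_num) (by omega)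
      le_rfl
    have h2 : ((1138 * (P + 1) - 420 : ℕ) : ℝ) = 1138 * (P + 1) - 420 := by
      rw [Nat.cast_sub (by omega)]; push_cast; ring
    rw [h2] at h1
    refine le_trans ?_ h1
    rw [hpR]
    push_cast
    linarith
  refine ⟨Real.exp L, hlim, ?_, ?_, hmid⟩
  · rcases Nat.lt_or_ge p 7 with h7 | h7
    · have h1 := half_le hk hkp hL
      refine le_trans ?_ h1
      have : (p : ℝ) ≤ 6 := by exact_mod_cast (by omega : p ≤ 6)
      linarith
    rcases Nat.lt_or_ge p 343 with h343 | h343
    · have h1 := hmid h7 h343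
      refine le_trans ?_ h1
      have : (0 : ℝ) ≤ p := by positivity
      linarith
    set q := (P + 1) / 86 with hq
    have hq1 : 1 ≤ q := by
      rw [hq, Nat.le_div_iff_mul_le (by norm_num)]; omega
    set H := (P + 1) / q with hH
    set e := (P + 1) % q with he
    have hqM : q * 86 ≤ P + 1 := Nat.div_mul_le_self _ _
    have hqM2 : P + 1 < (q + 1) * 86 := by
      have := Nat.lt_div_mul_add (a := P + 1) (by norm_num : 0 < 86)
      omega
    have hH1 : 86 ≤ H := by
      rw [hH, Nat.le_div_iff_mul_le hq1, mul_comm]; exact hqM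
    have hH2 : H < 172 := by
      rw [hH, Nat.div_lt_iff_lt_mul hq1]
      omega
    have hdiv : P + 1 = H * q + e := by
      rw [hH, he, mul_comm]; exact (Nat.div_add_mod (P + 1) q).symm
    have he1 : e < q := Nat.mod_lt _ hq1
    have hg := good_all H (by omega) hH2
    have h1 := rate_le hk hkp hL (q := q) (e := e) hg (by omega) (by norm_num) (by omega) hq1
    have h2 : ((1138 * H - 420 : ℕ) : ℝ) = 1138 * H - 420 := by
      rw [Nat.cast_sub (by omega)]; push_cast; ring
    rw [h2] at h1
    refine le_trans ?_ h1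
    have hPR : (P : ℝ) + 1 = H * q + e := by exact_mod_cast hdiv
    have heR : (e : ℝ) + 1 ≤ q := by exact_mod_cast he1
    have hHR : (86 : ℝ) ≤ H := by exact_mod_cast hH1
    have hqR : (1 : ℝ) ≤ q := by exact_mod_cast hq1
    have hp' : (p : ℝ) = 2 * (H * q + e) - 1 := by rw [hpR, ← hPR]; ring
    rw [hp', le_div_iff₀ (by norm_num)]
    have h3 : (86 : ℝ) * q ≤ H * q := by gcongr
    push_cast
    nlinarith
  · set q := (P + 1) / 2048 with hq
    set e := (P + 1) % 2048 with he
    have hdiv : P + 1 = 2048 * q + e := (Nat.div_add_mod (P + 1) 2048).symm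
    have he1 : e < 2048 := Nat.mod_lt _ (by norm_num)
    have hPR : (P : ℝ) + 1 = 2048 * q + e := by exact_mod_cast hdiv
    have heR : (e : ℝ) + 1 ≤ 2048 := by exact_mod_cast he1
    have hpq : (p : ℝ) - 4093 ≤ 4096 * q := by
      rw [hpR]
      linarith
    rcases Nat.eq_zero_or_pos q with h0 | h0
    · have h1 := Real.exp_pos L
      rw [h0] at hpq
      push_cast at hpq
      linarith
    · have h1 := rate_le hk hkp hL (q := q) (e := e) good_2048 (by norm_num) (by norm_num)
        (by omega) h0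
      refine le_trans ?_ h1
      have hqR : (1 : ℝ) ≤ q := by exact_mod_cast h0
      push_cast
      nlinarith

end Pool.Agent.Results.MP_b30443_co.ThreeTerm
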